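import Pool.Agent.Helper23.EC.DGoalsA

/-!
# Packet D_B7: termwise differentiation of `Φ_B`
-/

set_option autoImplicit false

open MeasureTheory Filter Topology Set

namespace Pool.Agent.Helper7.EC.D_B7

open EC237

/-- The extra terms, as a family over `Tri`. -/
noncomputable def ex (w : ℂ) (p : Tri) : ℂ :=
  if ClT 1 5 5 p ∧ p.1 + p.2.1 = 0 then PowerSeries.coeff 2 (Eo w (p.1, 1) (p.2.2, 0)) else 0

lemma ne_of_cl {r : ℤ} (hr : r % 6 ≠ 0) {k : ℤ × ℤ} (h : InCl r k) : k ≠ 0 := by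
  rintro rfl
  unfold InCl at h
  have h' : ((0:ℤ) + 3 * 0 - r) % 6 = 0 := h
  omega

lemma cl_add {r s : ℤ} {k l : ℤ × ℤ} (h : InCl r k) (h' : InCl s l) : InCl (r + s) (k + l) := by
  unfold InCl at *
  show (k.2 + l.2 + 3 * (k.1 + l.1) - (r + s)) % 6 = 0
  omega

lemma cl_neg {r : ℤ} {k : ℤ × ℤ} (h : InCl r k) : InCl (-r) (-k) := by
  unfold InCl at *
  show (-k.2 + 3 * (-k.1) - (-r)) % 6 = 0
  omega

lemma sum4 (p : Tri) (a b c d : ℤ) (h : a + b + c + d = 0) :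
    ((p.1, a) + (p.2.1, b) + (p.2.2, c) + (k4 p, d) : SV) = 0 := by
  refine Prod.ext ?_ h
  show p.1 + p.2.1 + p.2.2 + k4 p = 0
  unfold k4
  abel

/-- Facts on family A. -/
lemma factsA (p : Tri) (h : ClT 1 1 1 p) : p.1 ≠ 0 ∧ p.2.1 ≠ 0 ∧ p.2.2 ≠ 0 ∧ k4 p ≠ 0 ∧
    p.1 + p.2.1 ≠ 0 ∧ p.2.1 + p.2.2 ≠ 0 := by
  obtain ⟨h1, h2, h3⟩ := h
  refine ⟨ne_of_cl (by norm_num) h1, ne_of_cl (by norm_num) h2, ne_of_cl (by norm_num) h3,
    ne_of_cl (r := -(1 + 1 + 1)) (by norm_num) (cl_neg (cl_add (cl_add h1 h2) h3)),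
    ne_of_cl (r := 1 + 1) (by norm_num) (cl_add h1 h2),
    ne_of_cl (r := 1 + 1) (by norm_num) (cl_add h2 h3)⟩

/-- Facts on family B. -/
lemma factsB (p : Tri) (h : ClT 1 5 5 p) : p.1 ≠ 0 ∧ p.2.1 ≠ 0 ∧ p.2.2 ≠ 0 ∧ k4 p ≠ 0 ∧
    p.2.1 + p.2.2 ≠ 0 := by
  obtain ⟨h1, h2, h3⟩ := h
  refine ⟨ne_of_cl (by norm_num) h1, ne_of_cl (by norm_num) h2, ne_of_cl (by norm_num) h3,
    ne_of_cl (r := -(1 + 5 + 5)) (by norm_num) (cl_neg (cl_add (cl_add h1 h2) h3)),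
    ne_of_cl (r := 5 + 5) (by norm_num) (cl_add h2 h3)⟩

lemma derA (hA6 : A6) (p : Tri) (w : ℂ) (hw : 0 < w.re) :
    HasDerivAt (fun u => famA (q2 u) p) (w⁻¹ * famA (t2 w) p) w := by
  unfold famA
  by_cases h : ClT 1 1 1 p
  · simp only [h, if_true]
    obtain ⟨h1, h2, h3, h4, h5, h6⟩ := factsA p h
    exact (hA6 w hw).1 (p.1, 1) (p.2.1, -1) (p.2.2, 1) (k4 p, -1)
      (sum4 p 1 (-1) 1 (-1) (by norm_num)) h1 h2 h3 h4 h5 h6
  · simp only [h, if_false, mul_zero]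
    exact hasDerivAt_const _ _

lemma derB (hA6 : A6) (p : Tri) (w : ℂ) (hw : 0 < w.re) :
    HasDerivAt (fun u => famB (q2 u) p) (w⁻¹ * (famB (t2 w) p + ex w p)) w := by
  unfold famB ex
  by_cases h : ClT 1 5 5 p
  · obtain ⟨h1, h2, h3, h4, h6⟩ := factsB p h
    by_cases h5 : p.1 + p.2.1 = 0
    · simp only [h, h5, and_self, if_true]
      have e2 : ((p.2.1, -1) : SV) = -((p.1, 1) : SV) := by
        refine Prod.ext ?_ rfl
        show p.2.1 = -p.1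
        exact (neg_eq_of_add_eq_zero_right h5).symm
      have e4 : ((k4 p, 0) : SV) = -((p.2.2, 0) : SV) := by
        refine Prod.ext ?_ rfl
        show k4 p = -p.2.2
        unfold k4
        rw [h5, zero_add]
      have h6' : -p.1 + p.2.2 ≠ 0 := by
        rwa [neg_eq_of_add_eq_zero_right h5]
      have := (hA6 w hw).2 (p.1, 1) (p.2.2, 0) h1 h3 h6'
      rw [e2, e4]
      exact this
    · simp only [h, h5, and_false, if_true, if_false, add_zero]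
      exact (hA6 w hw).1 (p.1, 1) (p.2.1, -1) (p.2.2, 0) (k4 p, 0)
        (sum4 p 1 (-1) 0 0 (by norm_num)) h1 h2 h3 h4 h5 h6
  · simp only [h, false_and, if_false, add_zero, mul_zero]
    exact hasDerivAt_const _ _

/-- The majorant. -/
noncomputable def maj (p : Tri) : ℝ :=
  pw (p.1 + p.2.1) * (pw p.1 + pw p.2.1) * (pw p.2.2 + pw (k4 p)) +
    pw (p.2.1 + p.2.2) * (pw p.2.1 + pw p.2.2) * (pw (k4 p) + pw p.1)

lemma pw_nonneg (k : ℤ × ℤ) : 0 ≤ pw k := Real.rpow_nonneg (Real.sqrt_nonneg _) _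

lemma maj_nonneg (p : Tri) : 0 ≤ maj p := by
  have := pw_nonneg
  unfold maj
  have h1 := this (p.1 + p.2.1)
  have h2 := this p.1
  have h3 := this p.2.1
  have h4 := this p.2.2
  have h5 := this (k4 p)
  have h6 := this (p.2.1 + p.2.2)
  positivity

lemma bd (C : ℝ) (w : ℂ) (p : Tri) (a b c d : ℤ) (ha : |a| ≤ 1) (hb : |b| ≤ 1) (hc : |c| ≤ 1)
    (hd : |d| ≤ 1) (h : a + b + c + d = 0)
    (hB : ∀ v1 v2 v3 v4 : SV,
      |v1.2| ≤ 1 → |v2.2| ≤ 1 → |v3.2| ≤ 1 → |v4.2| ≤ 1 → v1 + v2 + v3 + v4 = 0 →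
      v1.1 ≠ 0 → v2.1 ≠ 0 → v3.1 ≠ 0 → v4.1 ≠ 0 →
      ‖PowerSeries.coeff 2 (Qs w v1 v2 v3 v4)‖ ≤
        C * (pw (v1.1 + v2.1) * (pw v1.1 + pw v2.1) * (pw v3.1 + pw v4.1)))
    (h1 : p.1 ≠ 0) (h2 : p.2.1 ≠ 0) (h3 : p.2.2 ≠ 0) (h4 : k4 p ≠ 0) :
    ‖q2 w (p.1, a) (p.2.1, b) (p.2.2, c) (k4 p, d)‖ ≤ C * maj p := by
  have e1 := hB (p.1, a) (p.2.1, b) (p.2.2, c) (k4 p, d) ha hb hc hd (sum4 p a b c d h)
    h1 h2 h3 h4
  have e2 := hB (p.2.1, b) (p.2.2, c) (k4 p, d) (p.1, a) hb hc hd ha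
    (by rw [← sum4 p a b c d h]; abel) h2 h3 h4 h1
  unfold q2 Qst maj
  rw [map_add, mul_add]
  exact (norm_add_le _ _).trans (add_le_add e1 e2)

lemma bdA (C : ℝ) (hC : 0 < C) (w : ℂ) (p : Tri)
    (hB : ∀ v1 v2 v3 v4 : SV,
      |v1.2| ≤ 1 → |v2.2| ≤ 1 → |v3.2| ≤ 1 → |v4.2| ≤ 1 → v1 + v2 + v3 + v4 = 0 →
      v1.1 ≠ 0 → v2.1 ≠ 0 → v3.1 ≠ 0 → v4.1 ≠ 0 →
      ‖PowerSeries.coeff 2 (Qs w v1 v2 v3 v4)‖ ≤
        C * (pw (v1.1 + v2.1) * (pw v1.1 + pw v2.1) * (pw v3.1 + pw v4.1))) :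
    ‖famA (q2 w) p‖ ≤ C * maj p := by
  unfold famA
  split_ifs with h
  · obtain ⟨h1, h2, h3, h4, -, -⟩ := factsA p h
    exact bd C w p 1 (-1) 1 (-1) (by norm_num) (by norm_num) (by norm_num) (by norm_num)
      (by norm_num) hB h1 h2 h3 h4
  · rw [norm_zero]
    exact mul_nonneg hC.le (maj_nonneg p)

lemma bdB (C : ℝ) (hC : 0 < C) (w : ℂ) (p : Tri)
    (hB : ∀ v1 v2 v3 v4 : SV,
      |v1.2| ≤ 1 → |v2.2| ≤ 1 → |v3.2| ≤ 1 → |v4.2| ≤ 1 → v1 + v2 + v3 + v4 = 0 →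
      v1.1 ≠ 0 → v2.1 ≠ 0 → v3.1 ≠ 0 → v4.1 ≠ 0 →
      ‖PowerSeries.coeff 2 (Qs w v1 v2 v3 v4)‖ ≤
        C * (pw (v1.1 + v2.1) * (pw v1.1 + pw v2.1) * (pw v3.1 + pw v4.1))) :
    ‖famB (q2 w) p‖ ≤ C * maj p := by
  unfold famB
  split_ifs with h
  · obtain ⟨h1, h2, h3, h4, -⟩ := factsB p h
    exact bd C w p 1 (-1) 0 0 (by norm_num) (by norm_num) (by norm_num) (by norm_num)
      (by norm_num) hB h1 h2 h3 h4
  · rw [norm_zero]
    exact mul_nonneg hC.le (maj_nonneg p)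

/-- The extra terms sum to the correction. -/
lemma exS (hB6 : B6) (y : ℝ) (hy : 0 < y) : HasSum (ex (y:ℂ)) (CorS (y:ℂ)) := by
  have hs := (hB6 y hy).hasSum
  have hinj : Function.Injective (fun q : (ℤ × ℤ) × (ℤ × ℤ) => ((q.1, -q.1, q.2) : Tri)) := by
    intro a b hab
    have h1 : a.1 = b.1 := congrArg (fun p : Tri => p.1) hab
    have h2 : a.2 = b.2 := congrArg (fun p : Tri => p.2.2) hab
    exact Prod.ext h1 h2
  refine (hinj.hasSum_iff ?_).1 ?_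
  · intro p hp
    unfold ex
    rw [if_neg]
    rintro ⟨-, h0⟩
    refine hp ⟨(p.1, p.2.2), ?_⟩
    refine Prod.ext rfl (Prod.ext ?_ rfl)
    exact neg_eq_of_add_eq_zero_right h0
  · have hfun : (ex (y:ℂ)) ∘ (fun q : (ℤ × ℤ) × (ℤ × ℤ) => ((q.1, -q.1, q.2) : Tri)) =
        fun q => if InCl 1 q.1 ∧ InCl 5 q.2 then
          PowerSeries.coeff 2 (Eo (y:ℂ) (q.1, 1) (q.2, 0)) else 0 := by
      funext q
      simp only [Function.comp, ex]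
      refine if_congr ?_ rfl rfl
      constructor
      · rintro ⟨⟨h1, -, h3⟩, -⟩
        exact ⟨h1, h3⟩
      · rintro ⟨h1, h3⟩
        refine ⟨⟨h1, ?_, h3⟩, add_neg_cancel q.1⟩
        have := cl_neg h1
        unfold InCl at *
        have h' : ((-q.1).2 + 3 * (-q.1).1 - (-1)) % 6 = 0 := this
        show ((-q.1).2 + 3 * (-q.1).1 - 5) % 6 = 0
        omega
    rw [hfun]
    exact hs

theorem thm (_hA1 : EC237.A1) (hA6 : EC237.A6) (hB1 : EC237.B1) (hB3 : EC237.B3)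
    (hB4 : EC237.B4) (hB6 : EC237.B6) : EC237.B7 := by
  intro y hy
  obtain ⟨C, hC, hB⟩ := hB3 y hy
  obtain ⟨c1, C1, hc1, hC1, hre⟩ := hB1 y hy
  have hU : IsOpen (Bd y) := Metric.isOpen_ball
  have hyU : (y:ℂ) ∈ Bd y := Metric.mem_ball_self (by positivity)
  have hmaj : Summable (fun p => C * maj p) := (hB4.2.1.add hB4.2.2.1).mul_left C
  have hy0 : (y:ℂ) ≠ 0 := Complex.ofReal_ne_zero.2 hy.ne'
  have hyre : 0 < (y:ℂ).re := hy
  -- family A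
  have hfA : ∀ p, DifferentiableOn ℂ (fun w => famA (q2 w) p) (Bd y) := fun p w hw =>
    (derA hA6 p w (hre w hw).1).differentiableAt.differentiableWithinAt
  have hbA : ∀ (p : Tri) (w : ℂ), w ∈ Bd y → ‖famA (q2 w) p‖ ≤ C * maj p := fun p w hw =>
    bdA C hC w p (hB w hw)
  have hsA := Complex.hasSum_deriv_of_summable_norm hmaj hfA hU hbA hyU
  have hdA := (Complex.differentiableOn_tsum_of_summable_norm hmaj hfA hU hbA).differentiableAt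
    (hU.mem_nhds hyU)
  have hfB : ∀ p, DifferentiableOn ℂ (fun w => famB (q2 w) p) (Bd y) := fun p w hw =>
    (derB hA6 p w (hre w hw).1).differentiableAt.differentiableWithinAt
  have hbB : ∀ (p : Tri) (w : ℂ), w ∈ Bd y → ‖famB (q2 w) p‖ ≤ C * maj p := fun p w hw =>
    bdB C hC w p (hB w hw)
  have hsB := Complex.hasSum_deriv_of_summable_norm hmaj hfB hU hbB hyU
  have hdB := (Complex.differentiableOn_tsum_of_summable_norm hmaj hfB hU hbB).differentiableAt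
    (hU.mem_nhds hyU)
  have eA : (fun p => deriv (fun w => famA (q2 w) p) (y:ℂ)) =
      fun p => (y:ℂ)⁻¹ * famA (t2 (y:ℂ)) p := funext fun p => (derA hA6 p _ hyre).deriv
  have eB : (fun p => deriv (fun w => famB (q2 w) p) (y:ℂ)) =
      fun p => (y:ℂ)⁻¹ * (famB (t2 (y:ℂ)) p + ex (y:ℂ) p) :=
    funext fun p => (derB hA6 p _ hyre).deriv
  rw [eA] at hsA
  rw [eB] at hsB
  have hA1 : HasSum (famA (t2 (y:ℂ)))
      ((y:ℂ) * deriv (fun w => ∑' p, famA (q2 w) p) (y:ℂ)) := by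
    have := hsA.mul_left (y:ℂ)
    simpa only [mul_inv_cancel_left₀ hy0] using this
  have hB1' : HasSum (fun p => famB (t2 (y:ℂ)) p + ex (y:ℂ) p)
      ((y:ℂ) * deriv (fun w => ∑' p, famB (q2 w) p) (y:ℂ)) := by
    have := hsB.mul_left (y:ℂ)
    simpa only [mul_inv_cancel_left₀ hy0] using this
  have hB2' : HasSum (famB (t2 (y:ℂ)))
      ((y:ℂ) * deriv (fun w => ∑' p, famB (q2 w) p) (y:ℂ) - CorS (y:ℂ)) := by
    have := hB1'.sub (exS hB6 y hy)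
    simpa only [add_sub_cancel_right] using this
  refine ⟨Summable.of_norm_bounded hmaj fun p => hbA p _ hyU,
    Summable.of_norm_bounded hmaj fun p => hbB p _ hyU, hA1.summable, hB2'.summable, ?_⟩
  have hd := (hdA.hasDerivAt.const_mul (1 / 4 : ℂ)).add hdB.hasDerivAt
  have hval : (y:ℂ)⁻¹ * (1 / 4 * ∑' p : Tri, famA (t2 (y:ℂ)) p +
      (∑' p : Tri, famB (t2 (y:ℂ)) p + CorS (y:ℂ))) =
      1 / 4 * deriv (fun w => ∑' p, famA (q2 w) p) (y:ℂ) +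
        deriv (fun w => ∑' p, famB (q2 w) p) (y:ℂ) := by
    rw [hA1.tsum_eq, hB2'.tsum_eq]
    field_simp
    ring
  rw [hval]
  exact hd

end Pool.Agent.Helper7.EC.D_B7
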