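import Pool.Agent.Helper38.EC.Goals

/-!
# Packet K0: the function `Kb` near `0`
-/

set_option autoImplicit false

open MeasureTheory Filter Topology Set

namespace Pool.Agent.Helper7.EC.I_K0

open EC237

/-- `log s * e^{-s}` is integrable on `(0,∞)`, with integral `-γ`. -/
lemma log_exp : IntegrableOn (fun s : ℝ => Real.log s * Real.exp (-s)) (Ioi 0) ∧
    ∫ s in Ioi (0:ℝ), Real.log s * Real.exp (-s) = -Real.eulerMascheroniConstant := by
  have hM := mellin_hasDerivAt_of_isBigO_rpow (E := ℂ) (a := 2) (b := 0) (s := 1)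
    (f := fun x : ℝ => ((Real.exp (-x) : ℝ) : ℂ)) ?_ ?_ (by norm_num) ?_ (by norm_num)
  · obtain ⟨h1, h2⟩ := hM
    have hcongr : ∀ t : ℝ, (t : ℂ) ^ ((1:ℂ) - 1) • (Real.log t • ((Real.exp (-t) : ℝ) : ℂ)) =
        ((Real.log t * Real.exp (-t) : ℝ) : ℂ) := by
      intro t
      rw [sub_self, Complex.cpow_zero, one_smul]
      push_cast
      rw [Complex.real_smul]
    have hint : IntegrableOn (fun t : ℝ => ((Real.log t * Real.exp (-t) : ℝ) : ℂ)) (Ioi 0) := by
      have := h1
      unfold MellinConvergent at this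
      refine this.congr_fun (fun t _ => ?_) measurableSet_Ioi
      exact hcongr t
    have hint' : IntegrableOn (fun s : ℝ => Real.log s * Real.exp (-s)) (Ioi 0) := by
      have h3 : Integrable (fun x => Real.log x * Real.exp (-x)) (volume.restrict (Ioi 0)) := by
        have := hint.re
        simpa only [RCLike.ofReal_re, Complex.ofReal_re, RCLike.re_to_complex] using this
      exact h3
    refine ⟨hint', ?_⟩
    have hG : HasDerivAt Complex.Gamma (-(Real.eulerMascheroniConstant : ℂ)) 1 :=
      Complex.hasDerivAt_Gamma_one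
    have hG' : HasDerivAt Complex.Gamma
        (mellin (fun t => Real.log t • ((Real.exp (-t) : ℝ) : ℂ)) 1) 1 := by
      refine h2.congr_of_eventuallyEq ?_
      have hop : {s : ℂ | 0 < s.re} ∈ 𝓝 (1:ℂ) :=
        (isOpen_lt continuous_const Complex.continuous_re).mem_nhds (by simp)
      filter_upwards [hop] with s hs
      rw [Complex.Gamma_eq_integral hs, Complex.GammaIntegral_eq_mellin]
    have heq := hG.unique hG'
    have hmel : mellin (fun t => Real.log t • ((Real.exp (-t) : ℝ) : ℂ)) 1 =
        ((∫ s in Ioi (0:ℝ), Real.log s * Real.exp (-s) : ℝ) : ℂ) := by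
      unfold mellin
      rw [← integral_complex_ofReal]
      refine setIntegral_congr_fun measurableSet_Ioi fun t _ => ?_
      exact hcongr t
    rw [hmel] at heq
    exact_mod_cast heq.symm
  · refine (Continuous.continuousOn ?_).locallyIntegrableOn measurableSet_Ioi
    exact Complex.continuous_ofReal.comp (Real.continuous_exp.comp continuous_neg)
  · rw [← Asymptotics.isBigO_norm_left]
    simp_rw [Complex.norm_real, Asymptotics.isBigO_norm_left]
    simpa only [neg_one_mul] using (isLittleO_exp_neg_mul_rpow_atTop zero_lt_one _).isBigO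
  · simp_rw [neg_zero, Real.rpow_zero]
    refine Asymptotics.isBigO_const_of_tendsto (?_ : Tendsto _ _ (𝓝 (1 : ℂ))) one_ne_zero
    rw [(by simp : (1 : ℂ) = Real.exp (-0))]
    exact (Complex.continuous_ofReal.comp
      (Real.continuous_exp.comp continuous_neg)).continuousWithinAt

lemma int_exp (x : ℝ) (hx : 0 < x) :
    IntegrableOn (fun u : ℝ => Real.exp (-(x * Real.exp u))) (Ici 0) := by
  rw [integrableOn_Ici_iff_integrableOn_Ioi]
  have h := exp_neg_integrableOn_Ioi (0:ℝ) hx
  refine Integrable.mono' h ?_ ?_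
  · exact (by fun_prop : Continuous fun u : ℝ =>
      Real.exp (-(x * Real.exp u))).aestronglyMeasurable
  · refine Eventually.of_forall fun u => ?_
    rw [Real.norm_eq_abs, abs_of_pos (Real.exp_pos _)]
    refine Real.exp_le_exp.2 ?_
    have : u ≤ Real.exp u := by linarith [Real.add_one_le_exp u]
    nlinarith

lemma int_div (x : ℝ) (hx : 0 < x) :
    IntegrableOn (fun s : ℝ => Real.exp (-s) / s) (Ici x) := by
  rw [integrableOn_Ici_iff_integrableOn_Ioi]
  have h := (integrableOn_exp_neg_Ioi x).const_mul x⁻¹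
  refine Integrable.mono' h ?_ ?_
  · refine ContinuousOn.aestronglyMeasurable (fun s hs => ?_) measurableSet_Ioi
    have hs' : s ≠ 0 := (lt_trans hx hs).ne'
    exact ((by fun_prop : Continuous fun s : ℝ =>
      Real.exp (-s)).continuousAt.div continuousAt_id hs').continuousWithinAt
  · refine (ae_restrict_iff' measurableSet_Ioi).2 (Eventually.of_forall fun s hs => ?_)
    have hs' : x < s := hs
    have hs0 : 0 < s := lt_trans hx hs'
    rw [Real.norm_eq_abs, abs_of_pos (div_pos (Real.exp_pos _) hs0), div_eq_mul_inv, mul_comm]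
    exact mul_le_mul_of_nonneg_right (inv_anti₀ hx hs'.le) (Real.exp_pos _).le

/-- The change of variables. -/
lemma cov (x : ℝ) (hx : 0 < x) : ∫ u in Ioi (0:ℝ), Real.exp (-(x * Real.exp u)) =
    ∫ s in Ioi x, Real.exp (-s) / s := by
  have hfun : (fun u : ℝ => ((fun s : ℝ => Real.exp (-s) / s) ∘ fun u => x * Real.exp u) u *
      (x * Real.exp u)) = fun u => Real.exp (-(x * Real.exp u)) := by
    funext u
    simp only [Function.comp]
    exact div_mul_cancel₀ _ (mul_pos hx (Real.exp_pos u)).ne'
  have himg : (fun u => x * Real.exp u) '' Ici 0 ⊆ Ici x := by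
    rintro _ ⟨u, hu, rfl⟩
    have : 1 ≤ Real.exp u := Real.one_le_exp hu
    show x ≤ x * Real.exp u
    nlinarith
  have h := integral_comp_mul_deriv_Ioi (f := fun u : ℝ => x * Real.exp u)
    (f' := fun u => x * Real.exp u) (g := fun s => Real.exp (-s) / s) (a := 0)
    (by fun_prop) (Real.tendsto_exp_atTop.const_mul_atTop hx)
    (fun u _ => ((Real.hasDerivAt_exp u).const_mul x).hasDerivWithinAt) ?_ ?_ ?_
  · rw [hfun] at h
    rw [h, Real.exp_zero, mul_one]
  · rintro _ ⟨u, hu, rfl⟩
    have h0 : x * Real.exp u ≠ 0 := (mul_pos hx (Real.exp_pos u)).ne'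
    exact ((by fun_prop : Continuous fun s : ℝ =>
      Real.exp (-s)).continuousAt.div continuousAt_id h0).continuousWithinAt
  · exact (int_div x hx).mono_set himg
  · rw [hfun]
    exact int_exp x hx

/-- Integration by parts. -/
lemma parts (x : ℝ) (hx : 0 < x) : ∫ s in Ioi x, Real.exp (-s) / s =
    -(Real.exp (-x) * Real.log x) + ∫ s in Ioi x, Real.log s * Real.exp (-s) := by
  have hi1 : IntegrableOn (fun s : ℝ => Real.exp (-s) / s) (Ioi x) :=
    (int_div x hx).mono_set Ioi_subset_Ici_self
  have hi2 : IntegrableOn (fun s : ℝ => Real.log s * Real.exp (-s)) (Ioi x) :=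
    log_exp.1.mono_set (Ioi_subset_Ioi hx.le)
  have h := integral_Ioi_of_hasDerivAt_of_tendsto' (f := fun s : ℝ => Real.exp (-s) * Real.log s)
    (f' := fun s => Real.exp (-s) / s - Real.log s * Real.exp (-s)) (a := x) (m := 0) ?_
    (hi1.sub hi2) ?_
  · rw [integral_sub hi1 hi2] at h
    linarith
  · intro s hs
    have hs0 : s ≠ 0 := (lt_of_lt_of_le hx hs).ne'
    have h1 : HasDerivAt (fun s : ℝ => Real.exp (-s)) (-Real.exp (-s)) s := by
      have := (hasDerivAt_neg s).exp
      simpa using this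
    have h2 := h1.mul (Real.hasDerivAt_log hs0)
    have h3 : Real.exp (-s) / s - Real.log s * Real.exp (-s) =
        -Real.exp (-s) * Real.log s + Real.exp (-s) * s⁻¹ := by
      rw [div_eq_mul_inv]
      ring
    rw [h3]
    exact h2
  · have h1 : Tendsto (fun s : ℝ => Real.exp (-s) * s) atTop (𝓝 0) := by
      have := Real.tendsto_pow_mul_exp_neg_atTop_nhds_zero 1
      simpa [mul_comm] using this
    refine squeeze_zero_norm' ?_ h1
    filter_upwards [eventually_ge_atTop (1:ℝ)] with s hs
    rw [Real.norm_eq_abs, abs_of_nonneg (mul_nonneg (Real.exp_pos _).le (Real.log_nonneg hs))]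
    have h2 := Real.log_le_sub_one_of_pos (lt_of_lt_of_le one_pos hs)
    exact mul_le_mul_of_nonneg_left (by linarith) (Real.exp_pos _).le

/-- The primitive is continuous at `0`. -/
lemma prim : Tendsto (fun x : ℝ => ∫ s in Ioi x, Real.log s * Real.exp (-s)) (𝓝[>] 0)
    (𝓝 (-Real.eulerMascheroniConstant)) := by
  rw [← log_exp.2]
  have h1 : ∀ x : ℝ, 0 < x → ∫ s in Ioi x, Real.log s * Real.exp (-s) =
      (∫ s in Ioi (0:ℝ), Real.log s * Real.exp (-s)) -
        ∫ s in (0:ℝ)..x, Real.log s * Real.exp (-s) := by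
    intro x hx
    have := intervalIntegral.integral_interval_add_Ioi (a := 0) (b := x) (μ := volume)
      (f := fun s : ℝ => Real.log s * Real.exp (-s)) log_exp.1
      (log_exp.1.mono_set (Ioi_subset_Ioi hx.le))
    linarith
  have h2 : Tendsto (fun x : ℝ => ∫ s in (0:ℝ)..x, Real.log s * Real.exp (-s)) (𝓝[>] 0)
      (𝓝 0) := by
    have hII : ∀ b : ℝ, IntervalIntegrable (fun s : ℝ => Real.log s * Real.exp (-s)) volume 0 b :=
      fun b => by
        refine IntervalIntegrable.mul_continuousOn ?_ ?_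
        · exact intervalIntegral.intervalIntegrable_log'
        · exact (by fun_prop : Continuous fun s : ℝ => Real.exp (-s)).continuousOn
    have hc := intervalIntegral.continuous_primitive
      (f := fun s : ℝ => Real.log s * Real.exp (-s)) (μ := volume)
      (fun a b => (hII a).symm.trans (hII b)) 0
    have := (hc.tendsto 0).mono_left (nhdsWithin_le_nhds (s := Ioi (0:ℝ)))
    simpa using this
  have h3 := (tendsto_const_nhds (α := ℝ) (f := 𝓝[Ioi 0] (0:ℝ))
    (x := ∫ s in Ioi (0:ℝ), Real.log s * Real.exp (-s))).sub h2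
  rw [sub_zero] at h3
  refine h3.congr' ?_
  filter_upwards [self_mem_nhdsWithin] with x hx
  exact (h1 x hx).symm

/-- Comparison of `Kb` with the exponential integral. -/
lemma comp (t : ℝ) (ht : 0 < t) :
    0 ≤ (∫ u in Ioi (0:ℝ), Real.exp (-(t / 2 * Real.exp u))) - Kb t ∧
    (∫ u in Ioi (0:ℝ), Real.exp (-(t / 2 * Real.exp u))) - Kb t ≤ t / 2 := by
  have hx : 0 < t / 2 := half_pos ht
  have hE : IntegrableOn (fun u : ℝ => Real.exp (-(t / 2 * Real.exp u))) (Ioi 0) :=
    (int_exp _ hx).mono_set Ioi_subset_Ici_self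
  have hle : ∀ u : ℝ, Real.exp (-(t * Real.cosh u)) ≤ Real.exp (-(t / 2 * Real.exp u)) := by
    intro u
    refine Real.exp_le_exp.2 ?_
    rw [Real.cosh_eq]
    have : 0 < Real.exp (-u) := Real.exp_pos _
    nlinarith
  have hK : IntegrableOn (fun u : ℝ => Real.exp (-(t * Real.cosh u))) (Ioi 0) := by
    refine Integrable.mono' hE ?_ ?_
    · exact (by fun_prop : Continuous fun u : ℝ =>
        Real.exp (-(t * Real.cosh u))).aestronglyMeasurable
    · refine Eventually.of_forall fun u => ?_
      rw [Real.norm_eq_abs, abs_of_pos (Real.exp_pos _)]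
      exact hle u
  have hsub : (∫ u in Ioi (0:ℝ), Real.exp (-(t / 2 * Real.exp u))) - Kb t =
      ∫ u in Ioi (0:ℝ), (Real.exp (-(t / 2 * Real.exp u)) - Real.exp (-(t * Real.cosh u))) := by
    rw [Kb, integral_sub hE hK]
  rw [hsub]
  constructor
  · exact integral_nonneg fun u => sub_nonneg.2 (hle u)
  · have h2 : ∫ u in Ioi (0:ℝ), (t / 2) * Real.exp (-u) = t / 2 := by
      rw [integral_const_mul, integral_exp_neg_Ioi_zero, mul_one]
    refine le_trans (integral_mono (hE.sub hK)
      ((integrableOn_exp_neg_Ioi 0).const_mul (t / 2)) fun u => ?_) h2.le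
    have h3 : Real.exp (-(t * Real.cosh u)) =
        Real.exp (-(t / 2 * Real.exp u)) * Real.exp (-(t / 2 * Real.exp (-u))) := by
      rw [← Real.exp_add, Real.cosh_eq]
      congr 1
      ring
    have h4 : 1 - t / 2 * Real.exp (-u) ≤ Real.exp (-(t / 2 * Real.exp (-u))) := by
      linarith [Real.add_one_le_exp (-(t / 2 * Real.exp (-u)))]
    have h5 : Real.exp (-(t / 2 * Real.exp u)) ≤ 1 := by
      rw [Real.exp_le_one_iff]
      have : 0 < Real.exp u := Real.exp_pos _
      nlinarith
    have h6 : 0 < Real.exp (-(t / 2 * Real.exp u)) := Real.exp_pos _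
    have h7 : 0 ≤ t / 2 * Real.exp (-u) := mul_nonneg hx.le (Real.exp_pos _).le
    show Real.exp (-(t / 2 * Real.exp u)) - Real.exp (-(t * Real.cosh u)) ≤
      t / 2 * Real.exp (-u)
    rw [h3]
    nlinarith

theorem thm : EC237.PI.G_K0 := by
  unfold EC237.PI.G_K0
  have hhalf : Tendsto (fun t : ℝ => t / 2) (𝓝[>] 0) (𝓝[>] 0) := by
    refine tendsto_nhdsWithin_iff.2 ⟨?_, ?_⟩
    · have : Tendsto (fun t : ℝ => t / 2) (𝓝 0) (𝓝 (0 / 2)) :=
        (continuous_id.div_const 2).tendsto 0
      rw [zero_div] at this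
      exact this.mono_left nhdsWithin_le_nhds
    · filter_upwards [self_mem_nhdsWithin] with t ht
      exact half_pos (mem_Ioi.1 ht)
  -- the difference
  have hd : Tendsto (fun t : ℝ => (∫ u in Ioi (0:ℝ), Real.exp (-(t / 2 * Real.exp u))) - Kb t)
      (𝓝[>] 0) (𝓝 0) := by
    refine tendsto_of_tendsto_of_tendsto_of_le_of_le' tendsto_const_nhds
      (tendsto_nhds_of_tendsto_nhdsWithin hhalf) ?_ ?_
    · filter_upwards [self_mem_nhdsWithin] with t ht
      exact (comp t ht).1
    · filter_upwards [self_mem_nhdsWithin] with t ht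
      exact (comp t ht).2
  have hlog : Tendsto (fun x : ℝ => (1 - Real.exp (-x)) * Real.log x) (𝓝[>] 0) (𝓝 0) := by
    have h0 : Tendsto (fun x : ℝ => x * Real.log x) (𝓝[>] 0) (𝓝 0) := by
      have := (Real.continuous_mul_log.tendsto 0).mono_left
        (nhdsWithin_le_nhds (s := Ioi (0:ℝ)))
      simpa using this
    refine squeeze_zero_norm' (a := fun x : ℝ => ‖x * Real.log x‖) ?_
      (by simpa using h0.norm)
    filter_upwards [self_mem_nhdsWithin] with x hx
    have hx' : 0 < x := hx
    rw [norm_mul, norm_mul]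
    refine mul_le_mul_of_nonneg_right ?_ (norm_nonneg _)
    have h1 : 0 ≤ 1 - Real.exp (-x) := by
      have : Real.exp (-x) ≤ 1 := Real.exp_le_one_iff.2 (by linarith)
      linarith
    rw [Real.norm_eq_abs, Real.norm_eq_abs, abs_of_nonneg h1, abs_of_pos hx']
    linarith [Real.add_one_le_exp (-x)]
  have hmain : Tendsto (fun t : ℝ => -((∫ u in Ioi (0:ℝ), Real.exp (-(t / 2 * Real.exp u))) - Kb t)
      + (1 - Real.exp (-(t / 2))) * Real.log (t / 2) +
      ((∫ s in Ioi (t / 2), Real.log s * Real.exp (-s)) + Real.eulerMascheroniConstant))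
      (𝓝[>] 0) (𝓝 0) := by
    have := ((hd.neg).add (hlog.comp hhalf)).add
      ((prim.comp hhalf).add_const Real.eulerMascheroniConstant)
    simpa [Function.comp_def] using this
  refine hmain.congr' ?_
  filter_upwards [self_mem_nhdsWithin] with t ht
  have hx : 0 < t / 2 := half_pos ht
  rw [cov _ hx, parts _ hx, Ld]
  ring

end Pool.Agent.Helper7.EC.I_K0
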